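import Pool.Agent.H40.Tp

set_option autoImplicit false

open Pool.Agent.H40.Tp

universe u v w

theorem Pool.Agent.Results.MP_4a08ba_lc.PosetDefinable.result :
    ∃ (S : Type) (_ : PartialOrder S), ∀ (L : FirstOrder.Language.{u, v}) (T : L.Theory),
      T.IsComplete → (HasTP.{u, v, w} T ↔ HasSOP.{u, v, w} T S) :=
  ⟨Sg, inferInstance, fun _ T _ => ⟨sop_of_tp T, tp_of_sop T⟩⟩
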